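import Mathlib

/-!
# Analytic sets are null measurable (capacitability)
-/

open MeasureTheory Set Filter Topology
open scoped ENNReal

namespace Pool.Agent.CD29

/-- Sequences bounded by `σ` in the first `n` places. -/
def box (σ : ℕ → ℕ) (n : ℕ) : Set (ℕ → ℕ) := {τ | ∀ i, i < n → τ i ≤ σ i}

/-- Sequences bounded by `σ`. -/
def fbox (σ : ℕ → ℕ) : Set (ℕ → ℕ) := {τ | ∀ i, τ i ≤ σ i}

theorem isCompact_fbox (σ : ℕ → ℕ) : IsCompact (fbox σ) := by
  have : fbox σ = Set.pi univ (fun i => Iic (σ i)) := by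
    ext τ; simp only [fbox, mem_ofPred_eq, Set.mem_pi, mem_univ, true_implies, mem_Iic]
  rw [this]
  exact isCompact_univ_pi fun i => (finite_Iic _).isCompact

theorem step {α : Type*} [MeasurableSpace α] (μ : Measure α) [IsFiniteMeasure μ]
    (f : (ℕ → ℕ) → α) (g : ℕ → ℕ) (n : ℕ) {ε : ℝ≥0∞} (hε : ε ≠ 0) :
    ∃ g' : ℕ → ℕ, (∀ i, i < n → g' i = g i) ∧ μ (f '' box g n) ≤ μ (f '' box g' (n + 1)) + ε := by
  have hU : f '' box g n = ⋃ m, f '' box (Function.update g n m) (n + 1) := by
    rw [← image_iUnion]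
    congr 1
    ext τ
    simp only [box, mem_iUnion]
    constructor
    · intro h
      refine ⟨τ n, fun i hi => ?_⟩
      rcases Nat.lt_succ_iff_lt_or_eq.1 hi with h1 | h1
      · rw [Function.update_of_ne h1.ne]; exact h i h1
      · subst h1; simp
    · rintro ⟨m, h⟩ i hi
      have := h i (by omega)
      rwa [Function.update_of_ne hi.ne] at this
  have hmono : Monotone fun m => f '' box (Function.update g n m) (n + 1) := by
    intro m m' hm
    apply image_mono
    intro τ h i hi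
    have := h i hi
    by_cases h1 : i = n
    · subst h1; simp only [Function.update_self] at this ⊢; exact this.trans hm
    · rwa [Function.update_of_ne h1] at this ⊢
  have hs : μ (f '' box g n) = ⨆ m, μ (f '' box (Function.update g n m) (n + 1)) := by
    rw [hU]; exact hmono.measure_iUnion
  by_cases h0 : μ (f '' box g n) = 0
  · exact ⟨g, fun _ _ => rfl, by rw [h0]; exact zero_le⟩
  have hlt : μ (f '' box g n) - ε < μ (f '' box g n) :=
    ENNReal.sub_lt_self (measure_ne_top _ _) h0 hε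
  nth_rewrite 2 [hs] at hlt
  obtain ⟨m, hm⟩ := lt_iSup_iff.1 hlt
  refine ⟨Function.update g n m, fun i hi => Function.update_of_ne hi.ne _ _, ?_⟩
  exact tsub_le_iff_right.1 hm.le

theorem exists_bound {α : Type*} [MeasurableSpace α] (μ : Measure α) [IsFiniteMeasure μ]
    (f : (ℕ → ℕ) → α) {ε : ℝ≥0∞} (hε : ε ≠ 0) :
    ∃ σ : ℕ → ℕ, ∀ n, μ (range f) ≤ μ (f '' box σ n) + ε := by
  obtain ⟨δ, hδ0, hδ⟩ := ENNReal.exists_pos_sum_of_countable' hε ℕ
  choose! F hF1 hF2 using fun (g : ℕ → ℕ) (n : ℕ) => step μ f g n (hδ0 n).ne'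
  let G : ℕ → (ℕ → ℕ) := fun n => Nat.rec 0 (fun n g => F g n) n
  have hG : ∀ n, G (n + 1) = F (G n) n := fun n => rfl
  have hG2 : ∀ n k i, i < n → G (n + k) i = G n i := by
    intro n k i hi
    induction k with
    | zero => rfl
    | succ k ih =>
      rw [← Nat.add_assoc, hG, hF1 _ _ i (by omega), ih]
  refine ⟨fun i => G (i + 1) i, fun n => ?_⟩
  have hbox : box (fun i => G (i + 1) i) n = box (G n) n := by
    ext τ
    simp only [box]
    constructor
    · intro h i hi
      have := h i hi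
      obtain ⟨k, rfl⟩ : ∃ k, n = i + 1 + k := ⟨n - (i + 1), by omega⟩
      rw [hG2 (i + 1) k i (by omega)]
      exact this
    · intro h i hi
      have := h i hi
      obtain ⟨k, rfl⟩ : ∃ k, n = i + 1 + k := ⟨n - (i + 1), by omega⟩
      rw [hG2 (i + 1) k i (by omega)] at this
      exact this
  rw [hbox]
  have key : ∀ n, μ (range f) ≤ μ (f '' box (G n) n) + ∑ i ∈ Finset.range n, δ i := by
    intro n
    induction n with
    | zero =>
      have : box (G 0) 0 = univ := by ext τ; simp [box]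
      rw [this, image_univ]
      simp
    | succ n ih =>
      rw [Finset.sum_range_succ, hG]
      calc μ (range f) ≤ μ (f '' box (G n) n) + ∑ i ∈ Finset.range n, δ i := ih
        _ ≤ (μ (f '' box (F (G n) n) (n + 1)) + δ n) + ∑ i ∈ Finset.range n, δ i := by
            gcongr
            exact hF2 (G n) n
        _ = _ := by rw [add_assoc, add_comm (δ n)]
  refine (key n).trans ?_
  gcongr
  exact (ENNReal.sum_le_tsum _).trans hδ.le

theorem exists_box_subset {α : Type*} [TopologicalSpace α] {f : (ℕ → ℕ) → α}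
    (hf : Continuous f) (σ : ℕ → ℕ) {U : Set α} (hU : IsOpen U) (hK : f '' fbox σ ⊆ U) :
    ∃ n, f '' box σ n ⊆ U := by
  by_contra hcon
  push Not at hcon
  have h1 : ∀ n, ∃ τ ∈ box σ n, f τ ∉ U := by
    intro n
    obtain ⟨y, ⟨τ, hτ, rfl⟩, hy⟩ := not_subset.1 (hcon n)
    exact ⟨τ, hτ, hy⟩
  choose τ hτ hfτ using h1
  let τ' : ℕ → (ℕ → ℕ) := fun n i => if i < n then τ n i else 0
  have hτ' : ∀ n, τ' n ∈ fbox σ := by
    intro n i
    simp only [τ']
    split_ifs with h
    · exact hτ n i h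
    · exact Nat.zero_le _
  obtain ⟨a, ha, φ, hφ, hlim⟩ := (isCompact_fbox σ).tendsto_subseq hτ'
  have hlim2 : Tendsto (fun k => τ (φ k)) atTop (𝓝 a) := by
    rw [tendsto_pi_nhds] at hlim ⊢
    intro i
    refine (hlim i).congr' ?_
    have := hφ.tendsto_atTop.eventually_gt_atTop i
    filter_upwards [this] with k hk
    simp only [Function.comp, τ']
    rw [if_pos hk]
  have h2 := (hf.tendsto a).comp hlim2
  have h3 := h2.eventually (hU.mem_nhds (hK ⟨a, ha, rfl⟩))
  obtain ⟨k, hk⟩ := h3.exists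
  exact hfτ _ hk

theorem exists_compact {α : Type*} [TopologicalSpace α] [MeasurableSpace α] (μ : Measure α)
    [IsFiniteMeasure μ] [μ.OuterRegular] {f : (ℕ → ℕ) → α} (hf : Continuous f)
    {ε : ℝ≥0∞} (hε : ε ≠ 0) :
    ∃ K ⊆ range f, IsCompact K ∧ μ (range f) ≤ μ K + ε := by
  obtain ⟨σ, hσ⟩ := exists_bound μ f hε
  refine ⟨f '' fbox σ, image_subset_range _ _, (isCompact_fbox σ).image hf, ?_⟩
  apply le_of_forall_gt
  intro c hc
  have hc' : μ (f '' fbox σ) < c - ε := by
    exact lt_tsub_iff_right.2 hc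
  obtain ⟨U, hKU, hU, hUc⟩ := (f '' fbox σ).exists_isOpen_lt_of_lt _ hc'
  obtain ⟨n, hn⟩ := exists_box_subset hf σ hU hKU
  calc μ (range f) ≤ μ (f '' box σ n) + ε := hσ n
    _ ≤ μ U + ε := by gcongr
    _ < c := lt_tsub_iff_right.1 hUc

/-- Analytic sets are null measurable for finite outer regular measures. -/
theorem nullMeasurableSet_of_analytic {α : Type*} [TopologicalSpace α] [T2Space α]
    [MeasurableSpace α] [OpensMeasurableSpace α] (μ : Measure α)
    [IsFiniteMeasure μ] [μ.OuterRegular] {s : Set α} (hs : AnalyticSet s) :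
    NullMeasurableSet s μ := by
  rw [AnalyticSet] at hs
  rcases hs with rfl | ⟨f, hf, rfl⟩
  · exact nullMeasurableSet_empty
  choose K hK1 hK2 hK3 using fun n : ℕ =>
    exists_compact μ hf (ε := ((n : ℝ≥0∞) + 1)⁻¹) (by simp)
  have hm : MeasurableSet (⋃ n, K n) := MeasurableSet.iUnion fun n => (hK2 n).measurableSet
  have hsub : (⋃ n, K n) ⊆ range f := iUnion_subset hK1
  have hle : μ (range f) ≤ μ (⋃ n, K n) := by
    apply ENNReal.le_of_forall_pos_le_add
    intro ε hε _
    obtain ⟨n, hn⟩ := ENNReal.exists_inv_nat_lt (a := (ε : ℝ≥0∞)) (by simpa using hε.ne')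
    refine (hK3 n).trans ?_
    gcongr
    · exact subset_iUnion K n
    · refine le_trans ?_ hn.le
      exact ENNReal.inv_le_inv.2 (by simp)
  have hdiff : μ (range f \ ⋃ n, K n) = 0 := by
    rw [measure_sdiff hsub hm.nullMeasurableSet (measure_ne_top _ _)]
    exact tsub_eq_zero_of_le hle
  have hae : (⋃ n, K n) =ᵐ[μ] range f := by
    apply Filter.EventuallyLE.antisymm
    · exact LE.le.eventuallyLE hsub
    · exact ae_le_set.2 hdiff
  exact hm.nullMeasurableSet.congr hae

end Pool.Agent.CD29
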