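import Pool.Agent.CD29.Dense
import Pool.Agent.CD29.Cap

/-!
# The conformal dimension of the limit set is almost surely equal to a measurable function
-/

open Set Filter Topology MeasureTheory
open scoped NNReal
open Pool.Agent.H36.Perc

namespace Pool.Agent.CD29

/-- The configurations. -/
abbrev Om (d n : ℕ) := List (Fin d → Fin n) → (Fin d → Fin n) → Bool

/-- The data: a sequence, a table of distances, two control functions and a constant. -/
abbrev Dat (d : ℕ) :=
  (ℕ → EuclideanSpace ℝ (Fin d)) × (ℕ → ℕ → ℝ) × (ℕ → ℕ) × (ℕ → ℕ) × ℕ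

variable {d n : ℕ}

theorem polish_prod (X Y : Type*) [TopologicalSpace X] [PolishSpace X] [TopologicalSpace Y]
    [PolishSpace Y] : PolishSpace (X × Y) := inferInstance

theorem borel_prod (X Y : Type*) [TopologicalSpace X] [PolishSpace X] [MeasurableSpace X]
    [BorelSpace X] [TopologicalSpace Y] [PolishSpace Y] [MeasurableSpace Y] [BorelSpace Y] :
    BorelSpace (X × Y) := inferInstance

instance polish1 : PolishSpace ((ℕ → ℕ) × (ℕ → ℕ) × ℕ) := inferInstance

instance polish2 : PolishSpace ((ℕ → ℕ → ℝ) × (ℕ → ℕ) × (ℕ → ℕ) × ℕ) := polish_prod _ _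

instance polish3 : PolishSpace (Dat d) := polish_prod _ _

instance polish4 : PolishSpace (Om d n × Dat d) := polish_prod _ _

instance borel1 : BorelSpace ((ℕ → ℕ) × (ℕ → ℕ) × ℕ) := inferInstance

instance borel2 : BorelSpace ((ℕ → ℕ → ℝ) × (ℕ → ℕ) × (ℕ → ℕ) × ℕ) := borel_prod _ _

instance borel3 : BorelSpace (Dat d) := borel_prod _ _

instance borel4 : BorelSpace (Om d n × Dat d) := borel_prod _ _

/-- The data witness that the conformal dimension is at most `a`. -/
def Wit (a : ℝ) (x : Om d n) (z : Dat d) : Prop :=
  surv x ∧ (∀ i, z.1 i ∈ lim x) ∧ (∀ w, kept x w → surv (sub x w) → ∃ i, z.1 i ∈ cube w) ∧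
    Good (tab z.1) z.2.1 z.2.2.1 z.2.2.2.1 ∧ Sep z.2.1 z.2.2.2.2 a

theorem good_iff (e r : ℕ → ℕ → ℝ) (H m : ℕ → ℕ) : Good e r H m ↔
    (∀ i j, r i j = r j i) ∧ (∀ i j k, r i k ≤ r i j + r j k) ∧ (∀ i j, 0 < e i j → 0 < r i j) ∧
      (∀ i j, e i j ≤ 0 → r i j = 0) ∧
      (∀ n i j k : ℕ, e i j < ((n : ℝ) + 1) * e i k → r i j ≤ (H n : ℝ) * r i k) ∧
      (∀ n i j k : ℕ, e i j * ((m n : ℝ) + 1) < e i k → ((n : ℝ) + 1) * r i j ≤ r i k) :=
  ⟨fun h => ⟨h.1, h.2, h.3, h.4, h.5, h.6⟩, fun ⟨h1, h2, h3, h4, h5, h6⟩ => ⟨h1, h2, h3, h4, h5, h6⟩⟩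

theorem measurable_good {α : Type*} [MeasurableSpace α] {e r : α → ℕ → ℕ → ℝ} {H m : α → ℕ → ℕ}
    (he : ∀ i j, Measurable fun z => e z i j) (hr : ∀ i j, Measurable fun z => r z i j)
    (hH : ∀ i, Measurable fun z => H z i) (hm : ∀ i, Measurable fun z => m z i) :
    Measurable fun z => Good (e z) (r z) (H z) (m z) := by
  simp only [good_iff]
  have hH' : ∀ i, Measurable fun z => ((H z i : ℕ) : ℝ) := fun i =>
    (measurable_from_top (f := fun q : ℕ => (q : ℝ))).comp (hH i)
  have hm' : ∀ i, Measurable fun z => ((m z i : ℕ) : ℝ) := fun i =>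
    (measurable_from_top (f := fun q : ℕ => (q : ℝ))).comp (hm i)
  refine Measurable.and ?_ (Measurable.and ?_ (Measurable.and ?_ (Measurable.and ?_
    (Measurable.and ?_ ?_))))
  · refine Measurable.forall fun i => Measurable.forall fun j => ?_
    exact measurableSet_setOfPred.1 (measurableSet_eq_fun (hr i j) (hr j i))
  · refine Measurable.forall fun i => Measurable.forall fun j => Measurable.forall fun k => ?_
    exact measurableSet_setOfPred.1 (measurableSet_le (hr i k) ((hr i j).add (hr j k)))
  · refine Measurable.forall fun i => Measurable.forall fun j => Measurable.imp ?_ ?_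
    · exact measurableSet_setOfPred.1 (measurableSet_lt measurable_const (he i j))
    · exact measurableSet_setOfPred.1 (measurableSet_lt measurable_const (hr i j))
  · refine Measurable.forall fun i => Measurable.forall fun j => Measurable.imp ?_ ?_
    · exact measurableSet_setOfPred.1 (measurableSet_le (he i j) measurable_const)
    · exact measurableSet_setOfPred.1 (measurableSet_eq_fun (hr i j) measurable_const)
  · refine Measurable.forall fun n => Measurable.forall fun i => Measurable.forall fun j =>
      Measurable.forall fun k => Measurable.imp ?_ ?_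
    · exact measurableSet_setOfPred.1 (measurableSet_lt (he i j) ((he i k).const_mul _))
    · exact measurableSet_setOfPred.1 (measurableSet_le (hr i j) ((hH' n).mul (hr i k)))
  · refine Measurable.forall fun n => Measurable.forall fun i => Measurable.forall fun j =>
      Measurable.forall fun k => Measurable.imp ?_ ?_
    · exact measurableSet_setOfPred.1
        (measurableSet_lt ((he i j).mul ((hm' n).add_const _)) (he i k))
    · exact measurableSet_setOfPred.1 (measurableSet_le ((hr i j).const_mul _) (hr i k))

theorem measurable_sep {α : Type*} [MeasurableSpace α] {r : α → ℕ → ℕ → ℝ} {C : α → ℕ}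
    (hr : ∀ i j, Measurable fun z => r z i j) (hC : Measurable C) (a : ℝ) :
    Measurable fun z => Sep (r z) (C z) a := by
  unfold Sep
  refine Measurable.forall fun k => Measurable.forall fun S => Measurable.imp ?_ ?_
  · refine Measurable.forall fun i => Measurable.imp measurable_const
      (Measurable.forall fun j => Measurable.imp measurable_const (Measurable.imp measurable_const ?_))
    exact measurableSet_setOfPred.1 (measurableSet_lt measurable_const (hr i j))
  · have hC' : Measurable fun z => ((C z : ℕ) : ℝ) :=
      (measurable_from_top (f := fun q : ℕ => (q : ℝ))).comp hC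
    exact measurableSet_setOfPred.1 (measurableSet_le measurable_const (hC'.mul_const _))

theorem measurable_wit (a : ℝ) : Measurable fun q : Om d n × Dat d => Wit a q.1 q.2 := by
  have hkept : ∀ w, Measurable fun q : Om d n × Dat d => kept q.1 w := fun w =>
    measurableSet_setOfPred.1 (measurable_fst (measurableSet_kept w))
  have hsurv : ∀ w, Measurable fun q : Om d n × Dat d => surv (sub q.1 w) := fun w =>
    measurableSet_setOfPred.1 (measurable_fst (measurable_sub w measurableSet_surv))
  have hu : ∀ i, Measurable fun q : Om d n × Dat d => q.2.1 i := fun i => by fun_prop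
  have hcube : ∀ (i : ℕ) (w : List (Fin d → Fin n)),
      Measurable fun q : Om d n × Dat d => q.2.1 i ∈ cube w := fun i w =>
    measurableSet_setOfPred.1 (hu i (isClosed_cube w).measurableSet)
  unfold Wit
  refine Measurable.and ?_ (Measurable.and ?_ (Measurable.and ?_ (Measurable.and ?_ ?_)))
  · exact hsurv []
  · refine Measurable.forall fun i => ?_
    have : ∀ q : Om d n × Dat d, (q.2.1 i ∈ lim q.1) ↔
        ∀ k, ∃ w, w.length = k ∧ kept q.1 w ∧ q.2.1 i ∈ cube w := fun q => Iff.rfl
    simp only [this]
    exact Measurable.forall fun k => Measurable.exists fun w =>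
      Measurable.and measurable_const ((hkept w).and (hcube i w))
  · exact Measurable.forall fun w => Measurable.imp (hkept w) (Measurable.imp (hsurv w)
      (Measurable.exists fun i => hcube i w))
  · apply measurable_good
    · intro i j
      exact (hu i).dist (hu j)
    · intro i j; fun_prop
    · intro i; fun_prop
    · intro i; fun_prop
  · apply measurable_sep
    · intro i j; fun_prop
    · fun_prop

/-- The configurations with a witness. -/
def Pr (a : ℝ) : Set (Om d n) := {x | ∃ z, Wit a x z}

theorem nullMeasurableSet_pr (μ : Measure (Om d n)) [IsFiniteMeasure μ] (a : ℝ) :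
    NullMeasurableSet (Pr a) μ := by
  have hA : AnalyticSet (Pr a : Set (Om d n)) := by
    have h1 : AnalyticSet {q : Om d n × Dat d | Wit a q.1 q.2} :=
      (measurableSet_setOfPred.2 (measurable_wit a)).analyticSet
    have h2 := h1.image_of_continuous (continuous_fst (X := Om d n) (Y := Dat d))
    have h3 : (Pr a : Set (Om d n)) = Prod.fst '' {q : Om d n × Dat d | Wit a q.1 q.2} := by
      ext x
      constructor
      · rintro ⟨z, hz⟩
        exact ⟨(x, z), hz, rfl⟩
      · rintro ⟨q, hq, rfl⟩
        exact ⟨q.2, hq⟩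
    rw [h3]
    exact h2
  exact nullMeasurableSet_of_analytic μ hA

end Pool.Agent.CD29
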