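import Pool.Agent.CD29.Borel

/-!
# The conformal dimension of the limit set: witnesses, positivity and inheritance
-/

open Set Filter Topology MeasureTheory Metric
open scoped NNReal ENNReal
open Pool.Agent.H36.Perc

namespace Pool.Agent.CD29

variable {d n : ℕ}

theorem conf_le_of_qs {X Y : Type} [MetricSpace X] [hY : MetricSpace Y] (f : X ≃ₜ Y)
    (hf : IsQuasisymmetric f) : conformalUpperBoxDim X ≤ upperBoxDim Y :=
  sInf_le ⟨Y, hY, f, hf, rfl⟩

theorem conf_le_of_pr (hn : 2 ≤ n) {a : ℝ} (ha : 0 ≤ a) {x : Om d n} (h : x ∈ Pr a) :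
    surv x ∧ conformalUpperBoxDim (lim x) ≤ (a : EReal) := by
  obtain ⟨⟨z, r, H, m, C⟩, hs, hz, hc, hg, hsep⟩ := h
  refine ⟨hs, ?_⟩
  have hcomp : CompactSpace (lim x) := isCompact_iff_compactSpace.1 (isCompact_lim x)
  set u : ℕ → lim x := fun i => ⟨z i, hz i⟩ with hu
  have hd : DenseRange u := dense_of_cubes hn u hc
  have hg' : Good (tab u) r H m := hg
  obtain ⟨Y, hY, f, hf, hfr⟩ := hg'.exists_space hd
  have hv : DenseRange (fun i => f (u i)) := f.surjective.denseRange.comp hd f.continuous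
  have hsep' : Sep (fun i j => dist (f (u i)) (f (u j))) C a := by
    simp only [hfr]
    exact hsep
  exact (conf_le_of_qs f hf).trans (upperBoxDim_le_of_sep hv ha hsep')

theorem mem_pr (hn : 0 < n) {a : ℝ} (ha : 0 ≤ a) {x : Om d n} (hs : surv x)
    (h : conformalUpperBoxDim (lim x) < (a : EReal)) : x ∈ Pr a := by
  obtain ⟨D, ⟨Y, hY, f, hf, rfl⟩, hD⟩ := sInf_lt_iff.1 h
  obtain ⟨u, hu⟩ := exists_cube_seq hn hs
  obtain ⟨H, m, hg⟩ := exists_good f hf u
  obtain ⟨C, hC⟩ := exists_sep_of_dim_lt (fun i => f (u i)) ha hD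
  exact ⟨(fun i => (u i : EuclideanSpace ℝ (Fin d)), fun i j => dist (f (u i)) (f (u j)), H, m, C),
    hs, fun i => (u i).2, hu, hg, hC⟩

theorem upperBoxDim_nonneg (Y : Type*) [MetricSpace Y] [Nonempty Y] : 0 ≤ upperBoxDim Y := by
  have h := le_upperBoxDim (X := Y) (K := 1) (q := 0) one_pos (by
    apply Eventually.frequently
    filter_upwards with r
    rw [Real.rpow_zero, mul_one, ENNReal.ofReal_one]
    have h1 : 0 < coveringNumber r.toNNReal (univ : Set Y) :=
      coveringNumber_pos_iff.2 univ_nonempty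
    have h2 : 1 ≤ coveringNumber r.toNNReal (univ : Set Y) := Order.one_le_iff_pos.2 h1
    exact_mod_cast (ENat.toENNReal_mono h2))
  exact_mod_cast h

theorem conf_nonneg (hn : 0 < n) {x : Om d n} (hs : surv x) :
    0 ≤ conformalUpperBoxDim (lim x) := by
  apply le_sInf
  rintro D ⟨Y, hY, f, hf, rfl⟩
  obtain ⟨y, hy⟩ := lim_nonempty hn hs
  have : Nonempty Y := ⟨f ⟨y, hy⟩⟩
  exact upperBoxDim_nonneg Y

/-- The similarity from the limit set of a subtree into the limit set. -/
theorem exists_similarity (hn : 0 < n) {x : Om d n} {w : List (Fin d → Fin n)}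
    (hk : kept x w) : ∃ g : lim (sub x w) → lim x, ∀ y z,
      dist (g y) (g z) = dist y z / (n : ℝ) ^ w.length := by
  have hn' : (0 : ℝ) < n := by exact_mod_cast hn
  have hp : (0:ℝ) < (n : ℝ) ^ w.length := by positivity
  have hmem : ∀ (y0 : EuclideanSpace ℝ (Fin d)) v, y0 ∈ cube v →
      (cpt w + ((n : ℝ) ^ w.length)⁻¹ • y0) ∈ cube (w ++ v) := by
    intro y0 v hv i
    obtain ⟨h1, h2⟩ := hv i
    have e : (cpt w + ((n : ℝ) ^ w.length)⁻¹ • y0) i = corner w i + y0 i / (n : ℝ) ^ w.length := by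
      rw [PiLp.add_apply, PiLp.smul_apply, smul_eq_mul, div_eq_inv_mul]
      rfl
    rw [e, corner_append hn, List.length_append, pow_add]
    constructor
    · have : corner v i / (n : ℝ) ^ w.length ≤ y0 i / (n : ℝ) ^ w.length := by gcongr
      linarith
    · have h3 : y0 i / (n : ℝ) ^ w.length ≤
          (corner v i + 1 / (n : ℝ) ^ v.length) / (n : ℝ) ^ w.length := by gcongr
      have h4 : (corner v i + 1 / (n : ℝ) ^ v.length) / (n : ℝ) ^ w.length =
          corner v i / (n : ℝ) ^ w.length + 1 / ((n : ℝ) ^ w.length * (n : ℝ) ^ v.length) := by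
        field_simp
      linarith
  have hlim : ∀ y0 ∈ lim (sub x w), (cpt w + ((n : ℝ) ^ w.length)⁻¹ • y0) ∈ lim x := by
    intro y0 hy0
    have hw : (cpt w + ((n : ℝ) ^ w.length)⁻¹ • y0) ∈ cube w := by
      obtain ⟨v, _, _, hv⟩ := hy0 0
      exact cube_append_subset hn _ _ (hmem y0 v hv)
    intro k
    rcases le_or_gt k w.length with hkw | hkw
    · refine ⟨w.take k, by simp [hkw], kept_take _ hk, ?_⟩
      have e := List.take_append_drop k w
      rw [← e] at hw
      have := cube_append_subset hn _ _ hw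
      rwa [e] at this
    · obtain ⟨v, hv1, hv2, hv3⟩ := hy0 (k - w.length)
      exact ⟨w ++ v, by rw [List.length_append, hv1]; omega, (kept_append _ _ _).2 ⟨hk, hv2⟩,
        hmem y0 v hv3⟩
  refine ⟨fun y => ⟨_, hlim y.1 y.2⟩, fun y z => ?_⟩
  rw [Subtype.dist_eq, Subtype.dist_eq, dist_add_left, dist_smul₀, norm_inv, norm_pow,
    Real.norm_of_nonneg hn'.le, div_eq_inv_mul]

theorem conf_le_of_similarity {F K : Type} [MetricSpace F] [MetricSpace K] [CompactSpace K]
    [Nonempty K] {c : ℝ} (hc : 0 < c) (g : K → F) (hg : ∀ y z, dist (g y) (g z) = dist y z / c)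
    {a : ℝ} (ha : 0 ≤ a) (h : conformalUpperBoxDim F < (a : EReal)) :
    conformalUpperBoxDim K ≤ (a : EReal) := by
  obtain ⟨D, ⟨Y, hY, f, ⟨η, hη⟩, rfl⟩, hD⟩ := sInf_lt_iff.1 h
  have hgc : Continuous g := by
    apply (LipschitzWith.of_dist_le_mul (K := (c⁻¹).toNNReal) ?_).continuous
    intro y z
    rw [hg, Real.coe_toNNReal _ (by positivity), div_eq_inv_mul]
  have hginj : Function.Injective g := by
    intro y z hyz
    have h1 : dist (g y) (g z) = 0 := by rw [hyz, dist_self]
    rw [hg, div_eq_zero_iff] at h1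
    rcases h1 with h1 | h1
    · exact dist_eq_zero.1 h1
    · exact absurd h1 hc.ne'
  have hφ : IsClosedEmbedding (fun y => f (g y)) :=
    (f.continuous.comp hgc).isClosedEmbedding (f.injective.comp hginj)
  set f' : K ≃ₜ range (fun y => f (g y)) := hφ.isEmbedding.toHomeomorph with hf'
  have hdist : ∀ y z, dist (f' y) (f' z) = dist (f (g y)) (f (g z)) := fun y z => rfl
  have hqs : IsQuasisymmetric f' := by
    refine ⟨η, fun y b b' t ht hle => ?_⟩
    rw [hdist, hdist]
    apply hη _ _ _ t ht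
    rw [hg, hg, ← mul_div_assoc]
    gcongr
  have hs := exists_sep_of_dim_lt (fun i => f (g (TopologicalSpace.denseSeq K i))) ha hD
  obtain ⟨C, hC⟩ := hs
  have hv : DenseRange (fun i => f' (TopologicalSpace.denseSeq K i)) :=
    f'.surjective.denseRange.comp (TopologicalSpace.denseRange_denseSeq K) f'.continuous
  exact (conf_le_of_qs f' hqs).trans (upperBoxDim_le_of_sep hv ha hC)

theorem conf_sub_le (hn : 0 < n) {x : Om d n} {w : List (Fin d → Fin n)}
    (hk : kept x w) (hs : surv (sub x w)) {a : ℝ} (ha : 0 ≤ a)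
    (h : conformalUpperBoxDim (lim x) < (a : EReal)) :
    conformalUpperBoxDim (lim (sub x w)) ≤ (a : EReal) := by
  have hn' : (0 : ℝ) < n := by exact_mod_cast hn
  have hcomp : CompactSpace (lim (sub x w)) := isCompact_iff_compactSpace.1 (isCompact_lim _)
  obtain ⟨y0, hy0⟩ := lim_nonempty hn hs
  have hne : Nonempty (lim (sub x w)) := ⟨⟨y0, hy0⟩⟩
  obtain ⟨g, hg⟩ := exists_similarity hn hk
  exact conf_le_of_similarity (by positivity : (0:ℝ) < (n : ℝ) ^ w.length) g hg ha h

end Pool.Agent.CD29
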