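import Pool.Agent.CD29.Conf
import Pool.Agent.H36.Perc.ZeroOne

/-!
# The conformal upper box dimension of percolation is almost surely constant
-/

open Set Filter Topology MeasureTheory Metric
open scoped NNReal ENNReal
open Pool.Agent.H36.Perc

namespace Pool.Agent.CD29

variable {A : Type*} [Fintype A]

/-- Zero-one law for events which need not be measurable, with the outer measure. -/
theorem zero_one_outer (ν : Measure Bool) [IsProbabilityMeasure ν] (hA : 2 ≤ Fintype.card A)
    (hν : 0 < ν {true}) {E : Set (List A → A → Bool)} (hext : {x | ¬ surv x} ⊆ E)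
    (hinh : ∀ x ∈ E, ∀ a, x [] a = true → sub x [a] ∈ E) (hE1 : perc A ν E < 1) :
    ∀ᵐ x ∂perc A ν, surv x → x ∉ E := by
  have hx : MeasurableSet {x : List A → A → Bool | ¬ surv x} := measurableSet_surv.compl
  have h1 : perc A ν {x | ¬ surv x} =
      (ν {true} * perc A ν {x | ¬ surv x} + ν {false}) ^ Fintype.card A := by
    rw [← measure_children ν hx]
    congr 1
    ext x
    simp only [mem_ofPred_eq]
    rw [surv_iff]
    push Not
    rfl
  have h2 : perc A ν E ≤ (ν {true} * perc A ν E + ν {false}) ^ Fintype.card A := by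
    have h4 := measure_children ν (measurableSet_toMeasurable (perc A ν) E)
    rw [measure_toMeasurable] at h4
    rw [← h4]
    exact measure_mono fun x hx a ha => subset_toMeasurable _ _ (hinh x hx a ha)
  have h3 : perc A ν {x | ¬ surv x} ≤ perc A ν E := measure_mono hext
  set u : ℝ := (perc A ν {x | ¬ surv x}).toReal with hu
  set v : ℝ := (perc A ν E).toReal with hv
  set t : ℝ := (ν {true}).toReal with ht
  have hfalse : (ν {false}).toReal = 1 - t := by
    have : ν {false} = 1 - ν {true} := by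
      rw [← prob_compl_eq_one_sub (measurableSet_singleton _)]
      congr 1
      ext b; cases b <;> simp
    rw [this, ENNReal.toReal_sub_of_le prob_le_one ENNReal.one_ne_top]
    simp [ht]
  have ht0 : 0 < t := ENNReal.toReal_pos hν.ne' (measure_ne_top _ _)
  have ht1 : t ≤ 1 := by
    have := ENNReal.toReal_mono ENNReal.one_ne_top (prob_le_one (μ := ν) (s := {true}))
    simpa [ht] using this
  have hreal : ∀ q : ℝ≥0∞, q ≠ ∞ → ((ν {true} * q + ν {false}) ^ Fintype.card A).toReal =
      (t * q.toReal + (1 - t)) ^ Fintype.card A := by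
    intro q hq
    rw [ENNReal.toReal_pow, ENNReal.toReal_add (ENNReal.mul_ne_top (measure_ne_top _ _) hq)
      (measure_ne_top _ _), ENNReal.toReal_mul, hfalse]
  have hu' : u = (t * u + (1 - t)) ^ Fintype.card A := by
    conv_lhs => rw [hu, h1]
    exact hreal _ (measure_ne_top _ _)
  have hv' : v ≤ (t * v + (1 - t)) ^ Fintype.card A := by
    rw [← hreal _ (measure_ne_top _ _)]
    apply ENNReal.toReal_mono _ h2
    apply ENNReal.pow_ne_top
    exact ENNReal.add_ne_top.2 ⟨ENNReal.mul_ne_top (measure_ne_top _ _) (measure_ne_top _ _),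
      measure_ne_top _ _⟩
  have huv : u ≤ v := ENNReal.toReal_mono (measure_ne_top _ _) h3
  have hv1 : v < 1 := by
    have := (ENNReal.toReal_lt_toReal (measure_ne_top _ _) ENNReal.one_ne_top).2 hE1
    simpa using this
  have hvu : v = u := by
    rcases fixed_points hA ht0 ht1 ENNReal.toReal_nonneg huv hv1.le hu' hv' with h | h
    · exact h
    · exact absurd h hv1.ne
  have heq : perc A ν E = perc A ν {x | ¬ surv x} :=
    (ENNReal.toReal_eq_toReal_iff' (measure_ne_top _ _) (measure_ne_top _ _)).1 hvu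
  have hdiff : perc A ν (E \ {x | ¬ surv x}) = 0 := by
    rw [measure_sdiff hext hx.nullMeasurableSet (measure_ne_top _ _), heq, tsub_self]
  rw [ae_iff]
  refine measure_mono_null ?_ hdiff
  intro x hx
  simp only [mem_ofPred_eq] at hx
  push Not at hx
  exact ⟨hx.2, fun h => h hx.1⟩

variable {d n : ℕ}

/-- The event that the limit set is empty or has conformal dimension less than `a`. -/
def Ev (a : ℝ) : Set (Om d n) := {x | surv x → conformalUpperBoxDim (lim x) < (a : EReal)}

theorem ev_eq (hn : 2 ≤ n) {a : ℝ} (ha : 0 < a) : (Ev a : Set (Om d n)) =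
    {x | ¬ surv x} ∪ ⋃ q : {q : ℚ // 0 ≤ q ∧ (q : ℝ) < a}, Pr ((q : ℚ) : ℝ) := by
  have hn0 : 0 < n := by omega
  ext x
  simp only [Ev, mem_ofPred_eq, mem_union, mem_iUnion]
  constructor
  · intro h
    by_cases hs : surv x
    · right
      have h1 : max (conformalUpperBoxDim (lim x)) 0 < (a : EReal) :=
        max_lt (h hs) (by exact_mod_cast ha)
      obtain ⟨q, hq1, hq2⟩ := EReal.exists_rat_btwn_of_lt h1
      have hq1' : conformalUpperBoxDim (lim x) < (((q : ℚ) : ℝ) : EReal) :=
        lt_of_le_of_lt (le_max_left _ _) hq1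
      have hq3 : (0 : EReal) < (((q : ℚ) : ℝ) : EReal) := lt_of_le_of_lt (le_max_right _ _) hq1
      have hq4 : (0 : ℝ) < (q : ℝ) := by exact_mod_cast hq3
      have hq5 : (q : ℝ) < a := by exact_mod_cast hq2
      exact ⟨⟨q, by exact_mod_cast hq4.le, hq5⟩, mem_pr hn0 hq4.le hs hq1'⟩
    · left; exact hs
  · rintro (h | ⟨q, hq⟩) hs
    · exact absurd hs h
    · have h0 : (0 : ℝ) ≤ ((q : ℚ) : ℝ) := by exact_mod_cast q.2.1
      refine lt_of_le_of_lt (conf_le_of_pr hn h0 hq).2 ?_
      exact_mod_cast q.2.2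

theorem nullMeasurableSet_ev (hn : 2 ≤ n) (μ : Measure (Om d n)) [IsFiniteMeasure μ] {a : ℝ}
    (ha : 0 < a) : NullMeasurableSet (Ev a) μ := by
  rw [ev_eq hn ha]
  apply NullMeasurableSet.union
  · exact (measurableSet_surv.compl).nullMeasurableSet
  · exact NullMeasurableSet.iUnion fun q => nullMeasurableSet_pr μ _

theorem ev_inherited (hn : 2 ≤ n) {a : ℝ} (ha : 0 < a) (x : Om d n) (hx : x ∈ Ev a)
    (b : Fin d → Fin n) (hb : x [] b = true) : sub x [b] ∈ Ev a := by
  intro hs
  have hsx : surv x := (surv_iff x).2 ⟨b, hb, hs⟩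
  have h1 : max (conformalUpperBoxDim (lim x)) 0 < (a : EReal) :=
    max_lt (hx hsx) (by exact_mod_cast ha)
  obtain ⟨q, hq1, hq2⟩ := EReal.exists_rat_btwn_of_lt h1
  have hq3 : (0 : EReal) < (((q : ℚ) : ℝ) : EReal) := lt_of_le_of_lt (le_max_right _ _) hq1
  have hq4 : (0 : ℝ) < (q : ℝ) := by exact_mod_cast hq3
  have hk : kept x [b] := ⟨hb, trivial⟩
  exact lt_of_le_of_lt (conf_sub_le (by omega) hk hs hq4.le
    (lt_of_le_of_lt (le_max_left _ _) hq1)) hq2

theorem dichotomy (hd : 1 ≤ d) (hn : 2 ≤ n) (ν : Measure Bool) [IsProbabilityMeasure ν]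
    (hν : 0 < ν {true}) {a : ℝ} (ha : 0 < a) :
    (∀ᵐ x ∂perc (Fin d → Fin n) ν, surv x → conformalUpperBoxDim (lim x) < (a : EReal)) ∨
      (∀ᵐ x ∂perc (Fin d → Fin n) ν, surv x → ¬ conformalUpperBoxDim (lim x) < (a : EReal)) := by
  have hcard : 2 ≤ Fintype.card (Fin d → Fin n) := by
    rw [Fintype.card_fun, Fintype.card_fin, Fintype.card_fin]
    exact hn.trans (Nat.le_self_pow (by omega) n)
  by_cases h : perc (Fin d → Fin n) ν (Ev a) < 1
  · right
    have h1 := zero_one_outer ν hcard hν (E := Ev a) (fun x hx hs => absurd hs hx)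
      (fun x hx b hb => ev_inherited hn ha x hx b hb) h
    filter_upwards [h1] with x hx hs hlt
    exact hx hs fun _ => hlt
  · left
    have h1 : perc (Fin d → Fin n) ν (Ev a) = 1 := le_antisymm prob_le_one (not_lt.1 h)
    have h2 : ∀ᵐ x ∂perc (Fin d → Fin n) ν, x ∈ Ev a :=
      (mem_ae_iff_prob_eq_one₀ (nullMeasurableSet_ev hn _ ha)).2 h1
    exact h2

theorem ae_const (hd : 1 ≤ d) (hn : 2 ≤ n) (ν : Measure Bool) [IsProbabilityMeasure ν]
    (hν : 0 < ν {true}) : ∃ c : EReal, 0 ≤ c ∧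
      ∀ᵐ x ∂perc (Fin d → Fin n) ν, surv x → conformalUpperBoxDim (lim x) = c := by
  set S : Set EReal := {e | ∃ q : ℚ, 0 < q ∧ e = ((q : ℝ) : EReal) ∧
    ∀ᵐ x ∂perc (Fin d → Fin n) ν, surv x →
      conformalUpperBoxDim (lim x) < ((q : ℝ) : EReal)} with hS
  refine ⟨sInf S, ?_, ?_⟩
  · apply le_sInf
    rintro e ⟨q, hq, rfl, _⟩
    exact_mod_cast hq.le
  · have h1 : ∀ q : {q : ℚ // 0 < q}, ∀ᵐ x ∂perc (Fin d → Fin n) ν, surv x →
        (conformalUpperBoxDim (lim x) < (((q : ℚ) : ℝ) : EReal) ↔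
          (((q : ℚ) : ℝ) : EReal) ∈ S) := by
      rintro ⟨q, hq⟩
      have hq' : (0 : ℝ) < (q : ℝ) := by exact_mod_cast hq
      by_cases hmem : ((q : ℝ) : EReal) ∈ S
      · obtain ⟨q', _, hqq, hae⟩ := hmem
        have : (q' : ℝ) = (q : ℝ) := by exact_mod_cast hqq.symm
        rw [this] at hae
        filter_upwards [hae] with x hx hs
        exact ⟨fun _ => ⟨q', by assumption, hqq, by rw [this]; exact hae⟩, fun _ => hx hs⟩
      · rcases dichotomy hd hn ν hν hq' with h | h
        · exact absurd ⟨q, hq, rfl, h⟩ hmem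
        · filter_upwards [h] with x hx hs
          exact ⟨fun h2 => absurd h2 (hx hs), fun h2 => absurd h2 hmem⟩
    have h2 := ae_all_iff.2 h1
    filter_upwards [h2] with x hx hs
    have hnn := conf_nonneg (show 0 < n by omega) hs
    apply le_antisymm
    · apply le_sInf
      rintro e he
      obtain ⟨q, hq, rfl, hae⟩ := id he
      exact ((hx ⟨q, hq⟩ hs).2 he).le
    · by_contra hcon
      push Not at hcon
      obtain ⟨q, hq1, hq2⟩ := EReal.exists_rat_btwn_of_lt hcon
      have hq3 : (0 : EReal) < ((q : ℝ) : EReal) := lt_of_le_of_lt hnn hq1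
      have hq4 : (0 : ℚ) < q := by exact_mod_cast hq3
      exact absurd (sInf_le ((hx ⟨q, hq4⟩ hs).1 hq1)) (not_le.2 hq2)

end Pool.Agent.CD29
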