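import Pool.Agent.H36.Perc.Defs

/-!
# The upper box dimension in terms of a dense sequence
-/

open Set Filter Topology Metric
open scoped NNReal ENNReal

namespace Pool.Agent.CD29

open Pool.Agent.H36.Perc

/-- Separated finite families in the table `r` are small. -/
def Sep (r : ℕ → ℕ → ℝ) (C : ℕ) (a : ℝ) : Prop :=
  ∀ (k : ℕ) (S : Finset ℕ), (∀ i ∈ S, ∀ j ∈ S, i ≠ j → (1 / 2 : ℝ) ^ k < r i j) →
    (S.card : ℝ) ≤ C * (2 : ℝ) ^ ((k : ℝ) * a)

theorem upperBoxDim_le_of_sep {Y : Type*} [MetricSpace Y] {v : ℕ → Y} (hv : DenseRange v)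
    {C : ℕ} {a : ℝ} (ha : 0 ≤ a) (h : Sep (fun i j => dist (v i) (v j)) C a) :
    upperBoxDim Y ≤ (a : EReal) := by
  have hcov : ∀ k : ℕ, ((coveringNumber ((1 / 2 : ℝ) ^ k).toNNReal (univ : Set Y) : ℕ∞) : ℝ≥0∞) ≤
      ENNReal.ofReal (C * (2 : ℝ) ^ ((k : ℝ) * a)) := by
    intro k
    -- a maximal separated family
    let P : ℕ → Prop := fun c => ∃ S : Finset ℕ, S.card = c ∧
      ∀ i ∈ S, ∀ j ∈ S, i ≠ j → (1 / 2 : ℝ) ^ k < dist (v i) (v j)
    have hP0 : P 0 := ⟨∅, rfl, by simp⟩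
    obtain ⟨M, hM⟩ := exists_nat_gt (C * (2 : ℝ) ^ ((k : ℝ) * a))
    have hPb : ∀ c, P c → c ≤ M := by
      rintro c ⟨S, hS, hsep⟩
      have := h k S hsep
      rw [hS] at this
      exact_mod_cast (this.trans hM.le)
    classical
    have hmax := Nat.findGreatest_spec (P := P) (Nat.zero_le M) hP0
    obtain ⟨S, hS, hsep⟩ := hmax
    have hnear : ∀ j, ∃ i ∈ S, dist (v j) (v i) ≤ (1 / 2 : ℝ) ^ k := by
      intro j
      by_contra hcon
      push Not at hcon
      have hj : j ∉ S := fun hj => by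
        have := hcon j hj
        rw [dist_self] at this
        have h2 : (0:ℝ) < (1 / 2 : ℝ) ^ k := by positivity
        linarith
      have hP : P (Nat.findGreatest P M + 1) := by
        refine ⟨insert j S, by rw [Finset.card_insert_of_notMem hj, hS], ?_⟩
        intro i hi i' hi' hne
        rw [Finset.mem_insert] at hi hi'
        rcases hi with rfl | hi <;> rcases hi' with rfl | hi'
        · exact absurd rfl hne
        · exact hcon _ hi'
        · rw [dist_comm]; exact hcon _ hi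
        · exact hsep i hi i' hi' hne
      have h1 := Nat.le_findGreatest (hPb _ hP) hP
      omega
    have hclosed : IsClosed (⋃ i ∈ S, closedBall (v i) ((1 / 2 : ℝ) ^ k)) :=
      S.finite_toSet.isClosed_biUnion fun i _ => isClosed_closedBall
    have hall : (⋃ i ∈ S, closedBall (v i) ((1 / 2 : ℝ) ^ k)) = univ := by
      apply eq_univ_of_univ_subset
      rw [← hv.closure_range]
      apply closure_minimal _ hclosed
      rintro _ ⟨j, rfl⟩
      obtain ⟨i, hi, hd⟩ := hnear j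
      exact mem_biUnion hi hd
    have hcover : IsCover ((1 / 2 : ℝ) ^ k).toNNReal (univ : Set Y)
        ((S.image v : Finset Y) : Set Y) := by
      rw [isCover_iff_subset_iUnion_closedBall, ← hall]
      intro y hy
      simp only [mem_iUnion, exists_prop] at hy ⊢
      obtain ⟨i, hi, hy⟩ := hy
      refine ⟨v i, by simpa using ⟨i, hi, rfl⟩, ?_⟩
      rw [Real.coe_toNNReal _ (by positivity)]
      exact hy
    have h1 := hcover.coveringNumber_le_encard (subset_univ _)
    rw [Set.encard_coe_eq_coe_finsetCard] at h1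
    have h2 : (((coveringNumber ((1 / 2 : ℝ) ^ k).toNNReal (univ : Set Y) : ℕ∞)) : ℝ≥0∞) ≤
        (((S.image v).card : ℕ∞) : ℝ≥0∞) := ENat.toENNReal_le.2 h1
    refine h2.trans ?_
    have h3 : ((S.image v).card : ℝ) ≤ C * (2 : ℝ) ^ ((k : ℝ) * a) := by
      refine le_trans ?_ (h k S hsep)
      exact_mod_cast Finset.card_image_le
    have h4 : (((S.image v).card : ℕ∞) : ℝ≥0∞) = ENNReal.ofReal ((S.image v).card : ℝ) := by
      simp
    rw [h4]
    exact ENNReal.ofReal_le_ofReal h3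
  apply upperBoxDim_le (K := (C + 1) * (2:ℝ) ^ a) (s := 1) (by positivity) one_pos
  intro r hr0 hr1
  obtain ⟨n, hn1, hn2⟩ := exists_nat_pow_near_of_lt_one hr0 hr1.le (by norm_num : (0:ℝ) < 1 / 2)
    (by norm_num)
  rw [one_mul]
  have h1 : coveringNumber r.toNNReal (univ : Set Y) ≤
      coveringNumber ((1 / 2 : ℝ) ^ (n + 1)).toNNReal (univ : Set Y) :=
    coveringNumber_anti (Real.toNNReal_le_toNNReal hn1.le)
  refine le_trans (ENat.toENNReal_le.2 h1) ((hcov (n + 1)).trans ?_)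
  apply ENNReal.ofReal_le_ofReal
  have h2 : (2:ℝ) ^ (((n + 1 : ℕ) : ℝ) * a) ≤ (2:ℝ) ^ a * (1 / r) ^ a := by
    rw [← Real.mul_rpow (by norm_num) (by positivity), Real.rpow_mul (by norm_num),
      Real.rpow_natCast]
    apply Real.rpow_le_rpow (by positivity) _ ha
    rw [pow_succ, mul_comm]
    apply mul_le_mul_of_nonneg_left _ (by norm_num)
    rw [le_div_iff₀ hr0]
    have h3 : (2:ℝ) ^ n * (1 / 2 : ℝ) ^ n = 1 := by rw [← mul_pow]; norm_num
    calc (2:ℝ) ^ n * r ≤ (2:ℝ) ^ n * (1 / 2 : ℝ) ^ n := by gcongr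
      _ = 1 := h3
  have h5 : (0:ℝ) ≤ (2:ℝ) ^ a * (1 / r) ^ a := by positivity
  calc (C : ℝ) * (2:ℝ) ^ (((n + 1 : ℕ) : ℝ) * a) ≤ C * ((2:ℝ) ^ a * (1 / r) ^ a) := by gcongr
    _ ≤ (C + 1) * ((2:ℝ) ^ a * (1 / r) ^ a) := by nlinarith
    _ = _ := by ring

theorem exists_sep_of_dim_lt {Y : Type*} [MetricSpace Y] (v : ℕ → Y) {a : ℝ} (ha : 0 ≤ a)
    (h : upperBoxDim Y < (a : EReal)) : ∃ C, Sep (fun i j => dist (v i) (v j)) C a := by
  have h1 := eventually_lt_of_limsup_lt h
  have h2 : ∀ᶠ r : ℝ in 𝓝[>] 0, ((coveringNumber r.toNNReal (univ : Set Y) : ℕ∞) : ℝ≥0∞) <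
      ENNReal.ofReal ((1 / r) ^ a) := by
    have h3 : ∀ᶠ r : ℝ in 𝓝[>] 0, 0 < r ∧ r < 1 := by
      have := Ioo_mem_nhdsGT (one_pos : (0:ℝ) < 1)
      filter_upwards [this] with r hr
      exact ⟨hr.1, hr.2⟩
    filter_upwards [h1, h3] with r hr hr'
    obtain ⟨hr0, hr1⟩ := hr'
    by_contra hcon
    push Not at hcon
    have h4 := log_aux (K := 1) (q := a) one_pos hr0 hr1
    rw [Real.log_one, zero_mul, zero_add, one_mul] at h4
    have h5 : (a : EReal) ≤ ENNReal.log ((coveringNumber r.toNNReal (univ : Set Y) : ℕ∞) : ℝ≥0∞) /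
        ((Real.log (1 / r) : ℝ) : EReal) := by
      rw [← h4]
      apply EReal.div_le_div_right_of_nonneg
      · have : 0 < Real.log (1 / r) := Real.log_pos (by rw [lt_div_iff₀ hr0]; linarith)
        exact_mod_cast this.le
      · exact ENNReal.log_monotone hcon
    exact absurd hr (not_lt.2 h5)
  have h3 : Tendsto (fun k : ℕ => (1 / 2 : ℝ) ^ k) atTop (𝓝[>] 0) := by
    apply tendsto_nhdsWithin_of_tendsto_nhds_of_eventually_within
    · exact tendsto_pow_atTop_nhds_zero_of_lt_one (by norm_num) (by norm_num)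
    · exact Eventually.of_forall fun k => by simp only [mem_Ioi]; positivity
  obtain ⟨k0, hk0⟩ := eventually_atTop.1 (h3.eventually h2)
  have hcard : ∀ (k : ℕ) (S : Finset ℕ), k0 ≤ k + 1 →
      (∀ i ∈ S, ∀ j ∈ S, i ≠ j → (1 / 2 : ℝ) ^ k < dist (v i) (v j)) →
      (S.card : ℝ) ≤ (2 : ℝ) ^ (((k + 1 : ℕ) : ℝ) * a) := by
    intro k S hk hS
    classical
    have hinj : Set.InjOn v (S : Set ℕ) := by
      intro i hi j hj hij
      by_contra hne
      have := hS i hi j hj hne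
      rw [hij, dist_self] at this
      have h5 : (0:ℝ) < (1 / 2 : ℝ) ^ k := by positivity
      linarith
    have hsep : IsSeparated ((((1 / 2 : ℝ) ^ k).toNNReal : ℝ≥0) : ℝ≥0∞)
        ((S.image v : Finset Y) : Set Y) := by
      intro x hx y hy hxy
      simp only [Finset.coe_image, mem_image, Finset.mem_coe] at hx hy
      obtain ⟨i, hi, rfl⟩ := hx
      obtain ⟨j, hj, rfl⟩ := hy
      have hne : i ≠ j := fun h => hxy (by rw [h])
      have := hS i hi j hj hne
      show _ < edist (v i) (v j)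
      rw [edist_dist]
      exact ENNReal.ofReal_lt_ofReal_iff_of_nonneg (by positivity) |>.2 this
    have h5 := hsep.encard_le_packingNumber (subset_univ _)
    rw [Set.encard_coe_eq_coe_finsetCard, Finset.card_image_of_injOn hinj] at h5
    have h6 : (((1 / 2 : ℝ) ^ k).toNNReal : ℝ≥0) = 2 * ((1 / 2 : ℝ) ^ (k + 1)).toNNReal := by
      apply NNReal.eq
      rw [NNReal.coe_mul, Real.coe_toNNReal _ (by positivity), Real.coe_toNNReal _ (by positivity),
        pow_succ]
      push_cast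
      ring
    rw [h6] at h5
    have h7 := h5.trans ((packingNumber_two_mul_le_externalCoveringNumber _ _).trans
      (externalCoveringNumber_le_coveringNumber _ _))
    have h8 : ((S.card : ℕ∞) : ℝ≥0∞) ≤ _ := ENat.toENNReal_le.2 h7
    have h9 := h8.trans_lt (hk0 (k + 1) hk)
    have h10 : ((S.card : ℕ∞) : ℝ≥0∞) = ENNReal.ofReal (S.card : ℝ) := by simp
    rw [h10] at h9
    have h11 := (ENNReal.ofReal_le_ofReal_iff (by positivity)).1 h9.le
    refine h11.trans (le_of_eq ?_)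
    rw [Real.rpow_mul (by norm_num), Real.rpow_natCast]
    congr 1
    simp
  obtain ⟨C, hC⟩ := exists_nat_ge ((2:ℝ) ^ (((k0 + 1 : ℕ) : ℝ) * a))
  refine ⟨C, fun k S hS => ?_⟩
  rcases le_total k0 k with hk | hk
  · refine (hcard k S (by omega) hS).trans ?_
    have h5 : (2:ℝ) ^ (((k + 1 : ℕ) : ℝ) * a) = (2:ℝ) ^ a * (2:ℝ) ^ ((k:ℝ) * a) := by
      rw [← Real.rpow_add (by norm_num)]
      congr 1; push_cast; ring
    rw [h5]
    have h6 : (2:ℝ) ^ a ≤ C := by
      refine le_trans ?_ hC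
      apply Real.rpow_le_rpow_of_exponent_le (by norm_num)
      push_cast
      nlinarith [(Nat.cast_nonneg k0 : (0:ℝ) ≤ k0)]
    gcongr
  · have h5 := hcard k0 S (by omega) fun i hi j hj hne => by
      refine lt_of_le_of_lt ?_ (hS i hi j hj hne)
      exact pow_le_pow_of_le_one (by norm_num) (by norm_num) hk
    refine h5.trans (hC.trans ?_)
    have h6 : (1:ℝ) ≤ (2:ℝ) ^ ((k:ℝ) * a) := Real.one_le_rpow (by norm_num) (by positivity)
    nlinarith [(Nat.cast_nonneg C : (0:ℝ) ≤ C)]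

end Pool.Agent.CD29
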