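import Pool.Agent.CD29.Ext
import Pool.Agent.CD29.Dim

/-!
# A quasisymmetric map gives a controlled table of distances
-/

open Set Filter Topology
open scoped NNReal
open Pool.Agent.H36.Perc

namespace Pool.Agent.CD29

theorem homeo_zero (η : ℝ≥0 ≃ₜ ℝ≥0) : η 0 = 0 := by
  rcases η.continuous.strictMono_of_inj η.injective with h | h
  · obtain ⟨x, hx⟩ := η.surjective 0
    have h1 : η 0 ≤ η x := h.monotone zero_le
    rw [hx] at h1
    exact le_antisymm h1 zero_le
  · exfalso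
    obtain ⟨x, hx⟩ := η.surjective (η 0 + 1)
    have h1 : η x ≤ η 0 := h.antitone zero_le
    rw [hx] at h1
    have h2 : η 0 < η 0 + 1 := lt_add_of_pos_right _ one_pos
    exact absurd h1 (not_le.2 h2)

/-- The number `1 / (m + 1)`. -/
noncomputable def inv1 (m : ℕ) : ℝ≥0 := ((m : ℝ≥0) + 1)⁻¹

theorem coe_inv1 (m : ℕ) : (inv1 m : ℝ) = 1 / ((m : ℝ) + 1) := by
  unfold inv1; push_cast; rw [one_div]

theorem exists_good {F Y : Type*} [MetricSpace F] [MetricSpace Y] (f : F ≃ₜ Y)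
    (hf : IsQuasisymmetric f) (u : ℕ → F) :
    ∃ H m : ℕ → ℕ, Good (tab u) (fun i j => dist (f (u i)) (f (u j))) H m := by
  obtain ⟨η, hη⟩ := hf
  have hm : ∀ n : ℕ, ∃ m : ℕ, (η (inv1 m) : ℝ) ≤ 1 / ((n : ℝ) + 1) := by
    intro n
    have h1 : Tendsto inv1 atTop (𝓝 0) := by
      rw [← NNReal.tendsto_coe]
      simp only [coe_inv1]
      exact tendsto_one_div_add_atTop_nhds_zero_nat
    have h2 : Tendsto (fun m : ℕ => (η (inv1 m) : ℝ)) atTop (𝓝 0) := by
      have h3 := (η.continuous.tendsto 0).comp h1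
      rw [homeo_zero] at h3
      exact (NNReal.tendsto_coe.2 h3)
    have h4 : ∀ᶠ m : ℕ in atTop, (η (inv1 m) : ℝ) < 1 / ((n : ℝ) + 1) :=
      h2.eventually (gt_mem_nhds (by positivity))
    obtain ⟨m, hm⟩ := h4.exists
    exact ⟨m, hm.le⟩
  choose m hm using hm
  refine ⟨fun n => ⌈(η ((n : ℝ≥0) + 1) : ℝ)⌉₊, m, ?_, ?_, ?_, ?_, ?_, ?_⟩
  · intro i j; exact dist_comm _ _
  · intro i j k; exact dist_triangle _ _ _
  · intro i j h
    simp only [tab, dist_pos] at h ⊢
    exact fun h2 => h (f.injective h2)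
  · intro i j h
    have h2 : u i = u j := dist_le_zero.1 h
    simp [h2]
  · intro n i j k h
    have h1 : dist (u i) (u j) ≤ (((n : ℝ≥0) + 1 : ℝ≥0) : ℝ) * dist (u i) (u k) := by
      push_cast
      exact h.le
    refine (hη (u i) (u j) (u k) ((n : ℝ≥0) + 1) (by positivity) h1).trans ?_
    have h2 := Nat.le_ceil (η ((n : ℝ≥0) + 1) : ℝ)
    gcongr
  · intro n i j k h
    have hp : (0 : ℝ) < (m n : ℝ) + 1 := by positivity
    have h1 : dist (u i) (u j) ≤ (inv1 (m n) : ℝ) * dist (u i) (u k) := by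
      rw [coe_inv1, one_div, ← div_eq_inv_mul, le_div_iff₀ hp]
      exact h.le
    have h0 : 0 < inv1 (m n) := by unfold inv1; positivity
    have h2 := hη (u i) (u j) (u k) (inv1 (m n)) h0 h1
    have h3 : dist (f (u i)) (f (u j)) ≤ 1 / ((n : ℝ) + 1) * dist (f (u i)) (f (u k)) :=
      h2.trans (mul_le_mul_of_nonneg_right (hm n) dist_nonneg)
    have hq : (0 : ℝ) < (n : ℝ) + 1 := by positivity
    rw [one_div, ← div_eq_inv_mul, le_div_iff₀ hq] at h3
    linarith

end Pool.Agent.CD29
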