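import Pool.Agent.CD29.Data
import Pool.Agent.H36.Perc.Lower

/-!
# Dense sequences in the limit set of percolation
-/

open Set Filter Topology MeasureTheory
open scoped NNReal
open Pool.Agent.H36.Perc

namespace Pool.Agent.CD29

variable {d n : ℕ}

/-- A point of the limit set lies in a surviving kept cube of every level. -/
theorem exists_surviving (hn : 0 < n) {x : List (Fin d → Fin n) → (Fin d → Fin n) → Bool}
    {y : EuclideanSpace ℝ (Fin d)} (hy : y ∈ lim x) (k : ℕ) :
    ∃ w, w.length = k ∧ kept x w ∧ surv (sub x w) ∧ y ∈ cube w := by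
  choose v hv1 hv2 hv3 using hy
  -- the prefixes of length `k`
  have hpig : ∃ w ∈ (words (Fin d → Fin n) k), ∃ᶠ l in atTop, (v (k + l)).take k = w := by
    by_contra hcon
    push Not at hcon
    have h1 : ∀ᶠ l in atTop, ∀ w ∈ words (Fin d → Fin n) k, ¬ (v (k + l)).take k = w := by
      rw [eventually_all_finset]
      intro w hw
      exact hcon w hw
    obtain ⟨l, hl⟩ := h1.exists
    exact hl _ (mem_words.2 (by rw [List.length_take, hv1]; omega)) rfl
  obtain ⟨w, hw, hfr⟩ := hpig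
  have hdec : ∀ l, (v (k + l)).take k = w → kept x w ∧ alive l (sub x w) ∧ y ∈ cube w := by
    intro l hl
    have e := List.take_append_drop k (v (k + l))
    rw [hl] at e
    have h2 := hv2 (k + l)
    have h3 := hv3 (k + l)
    rw [← e] at h2 h3
    rw [kept_append] at h2
    refine ⟨h2.1, ⟨(v (k + l)).drop k, mem_words.2 ?_, h2.2⟩, cube_append_subset hn _ _ h3⟩
    rw [List.length_drop, hv1]; omega
  refine ⟨w, mem_words.1 hw, ?_, ?_, ?_⟩
  · obtain ⟨l, hl⟩ := hfr.exists
    exact (hdec l hl).1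
  · intro l
    obtain ⟨l', hl', hl⟩ := frequently_atTop.1 hfr l
    exact alive_anti hl' (hdec l' hl).2.1
  · obtain ⟨l, hl⟩ := hfr.exists
    exact (hdec l hl).2.2

theorem dense_of_cubes (hn : 2 ≤ n) {x : List (Fin d → Fin n) → (Fin d → Fin n) → Bool}
    (u : ℕ → lim x)
    (h : ∀ w, kept x w → surv (sub x w) → ∃ i, (u i : EuclideanSpace ℝ (Fin d)) ∈ cube w) :
    DenseRange u := by
  have hn0 : 0 < n := by omega
  have hn1 : (1 : ℝ) < n := by exact_mod_cast (show 1 < n by omega)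
  intro y
  rw [Metric.mem_closure_iff]
  intro ε hε
  have h1 : Tendsto (fun k : ℕ => (d : ℝ) * (1 / (n : ℝ) ^ k)) atTop (𝓝 ((d : ℝ) * 0)) := by
    apply Tendsto.const_mul
    have h2 := tendsto_pow_atTop_nhds_zero_of_lt_one (r := (1 / (n : ℝ))) (by positivity)
      (by rw [div_lt_one (by positivity)]; exact hn1)
    refine h2.congr fun k => ?_
    rw [div_pow, one_pow]
  rw [mul_zero] at h1
  obtain ⟨k, hk⟩ := (h1.eventually (gt_mem_nhds hε)).exists
  obtain ⟨w, hw1, hw2, hw3, hw4⟩ := exists_surviving hn0 y.2 k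
  obtain ⟨i, hi⟩ := h w hw2 hw3
  refine ⟨u i, mem_range_self i, ?_⟩
  rw [Subtype.dist_eq, dist_eq_norm]
  refine lt_of_le_of_lt (norm_cube_le hw4 hi) ?_
  rw [hw1]
  exact hk

/-- A sequence with a point in every surviving cube. -/
theorem exists_cube_seq (hn : 0 < n) {x : List (Fin d → Fin n) → (Fin d → Fin n) → Bool}
    (hx : surv x) : ∃ u : ℕ → lim x, ∀ w, kept x w → surv (sub x w) →
      ∃ i, (u i : EuclideanSpace ℝ (Fin d)) ∈ cube w := by
  classical
  obtain ⟨y0, hy0⟩ := lim_nonempty hn hx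
  have h1 : ∀ w, ∃ y : lim x, kept x w → surv (sub x w) →
      (y : EuclideanSpace ℝ (Fin d)) ∈ cube w := by
    intro w
    by_cases h : kept x w ∧ surv (sub x w)
    · obtain ⟨y, hy1, hy2⟩ := point_in_cube hn h.1 h.2
      exact ⟨⟨y, hy1⟩, fun _ _ => hy2⟩
    · exact ⟨⟨y0, hy0⟩, fun h2 h3 => absurd ⟨h2, h3⟩ h⟩
  choose pt hpt using h1
  obtain ⟨e, he⟩ := exists_surjective_nat (List (Fin d → Fin n))
  refine ⟨fun i => pt (e i), fun w hw1 hw2 => ?_⟩
  obtain ⟨i, hi⟩ := he w
  refine ⟨i, ?_⟩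
  show (pt (e i) : EuclideanSpace ℝ (Fin d)) ∈ cube w
  rw [hi]
  exact hpt w hw1 hw2

end Pool.Agent.CD29
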