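import Mathlib

/-!
# A monotone control function is dominated by a homeomorphism of `[0, ∞)`
-/

open MeasureTheory Set Filter Topology
open scoped NNReal

namespace Pool.Agent.CD29

theorem exists_homeo {θ : ℝ → ℝ} (hm : Monotone θ) (h0 : ∀ t ≤ 0, θ t = 0)
    (hlim : Tendsto θ (𝓝[>] 0) (𝓝 0)) :
    ∃ η : ℝ≥0 ≃ₜ ℝ≥0, ∀ t : ℝ≥0, θ t ≤ η t := by
  have hθ : ∀ t, 0 ≤ θ t := fun t => by
    rcases le_total t 0 with h | h
    · rw [h0 t h]
    · rw [← h0 0 le_rfl]; exact hm h
  have hmt : ∀ t : ℝ, 0 ≤ t → Monotone fun v => θ (t * v) := fun t ht v v' hv =>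
    hm (mul_le_mul_of_nonneg_left hv ht)
  set G : ℝ → ℝ := fun t => ∫ v in (1:ℝ)..2, θ (t * v) with hG
  have hint : ∀ t : ℝ, 0 ≤ t → ∀ a b : ℝ, IntervalIntegrable (fun v => θ (t * v)) volume a b :=
    fun t ht a b => (hmt t ht).intervalIntegrable
  have hG0 : G 0 = 0 := by simp [hG, h0]
  have hGm : ∀ s t : ℝ, 0 ≤ s → s ≤ t → G s ≤ G t := by
    intro s t hs hst
    apply intervalIntegral.integral_mono_on (by norm_num) (hint s hs _ _)
      (hint t (hs.trans hst) _ _)
    intro v hv
    exact hm (mul_le_mul_of_nonneg_right hst (by linarith [hv.1]))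
  have hGl : ∀ t : ℝ, 0 ≤ t → θ t ≤ G t := by
    intro t ht
    have : (∫ v in (1:ℝ)..2, θ t) ≤ G t := by
      apply intervalIntegral.integral_mono_on (by norm_num) (by simp) (hint t ht _ _)
      intro v hv
      exact hm (by nlinarith [hv.1])
    simpa [show (2:ℝ) - 1 = 1 by norm_num] using this
  have hGu : ∀ t : ℝ, 0 ≤ t → G t ≤ θ (2 * t) := by
    intro t ht
    have : G t ≤ (∫ v in (1:ℝ)..2, θ (2 * t)) := by
      apply intervalIntegral.integral_mono_on (by norm_num) (hint t ht _ _) (by simp)
      intro v hv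
      exact hm (by nlinarith [hv.2])
    simpa [show (2:ℝ) - 1 = 1 by norm_num] using this
  have hGnn : ∀ t : ℝ, 0 ≤ t → 0 ≤ G t := fun t ht => (hθ t).trans (hGl t ht)
  have hprim : Continuous fun b : ℝ => ∫ x in (0:ℝ)..b, θ x :=
    intervalIntegral.continuous_primitive (fun a b => hm.intervalIntegrable) 0
  have hGform : ∀ t : ℝ, 0 < t → G t =
      t⁻¹ * ((∫ x in (0:ℝ)..(t * 2), θ x) - ∫ x in (0:ℝ)..t, θ x) := by
    intro t ht
    have h1 := intervalIntegral.integral_comp_mul_left (a := 1) (b := 2) (f := θ) ht.ne'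
    rw [hG]
    simp only
    rw [h1, smul_eq_mul, mul_one]
    congr 1
    exact (intervalIntegral.integral_interval_sub_left hm.intervalIntegrable
      hm.intervalIntegrable).symm
  have hcont : ContinuousOn G (Ici 0) := by
    intro t ht
    rcases (show (0:ℝ) ≤ t from ht).eq_or_lt with h | h
    · subst h
      rw [ContinuousWithinAt, hG0]
      have h2 : Tendsto (fun t : ℝ => θ (2 * t)) (𝓝[>] 0) (𝓝 0) := by
        refine hlim.comp ?_
        apply tendsto_nhdsWithin_of_tendsto_nhds_of_eventually_within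
        · have : Tendsto (fun t : ℝ => 2 * t) (𝓝 0) (𝓝 (2 * 0)) := by
            exact (continuous_const.mul continuous_id).tendsto 0
          rw [mul_zero] at this
          exact this.mono_left nhdsWithin_le_nhds
        · filter_upwards [self_mem_nhdsWithin] with t ht
          simp only [mem_Ioi] at ht ⊢
          linarith
      have h3 : Tendsto G (𝓝[>] 0) (𝓝 0) := by
        apply tendsto_of_tendsto_of_tendsto_of_le_of_le' tendsto_const_nhds h2
        · filter_upwards [self_mem_nhdsWithin] with t ht
          exact hGnn t (le_of_lt ht)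
        · filter_upwards [self_mem_nhdsWithin] with t ht
          exact hGu t (le_of_lt ht)
      have h4 : Ici (0:ℝ) = insert 0 (Ioi 0) := by
        ext t; simp only [mem_Ici, mem_insert_iff, mem_Ioi]
        constructor
        · intro h; rcases h.eq_or_lt with h | h
          · left; exact h.symm
          · right; exact h
        · rintro (h | h)
          · rw [h]
          · exact h.le
      rw [h4, nhdsWithin_insert, tendsto_sup]
      refine ⟨?_, h3⟩
      rw [tendsto_pure_left]
      intro s hs
      rw [hG0]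
      exact mem_of_mem_nhds hs
    · apply ContinuousAt.continuousWithinAt
      have h2 : (fun t : ℝ => t⁻¹ * ((∫ x in (0:ℝ)..(t * 2), θ x) - ∫ x in (0:ℝ)..t, θ x)) =ᶠ[𝓝 t] G := by
        filter_upwards [lt_mem_nhds h] with s hs
        exact (hGform s hs).symm
      refine ContinuousAt.congr ?_ h2
      apply ContinuousAt.mul (continuousAt_inv₀ h.ne')
      apply ContinuousAt.sub
      · exact (hprim.comp (continuous_id.mul continuous_const)).continuousAt
      · exact hprim.continuousAt
  let e : ℝ≥0 → ℝ≥0 := fun t => ⟨(t:ℝ) + G t, add_nonneg t.2 (hGnn t t.2)⟩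
  have he : ∀ t, ((e t : ℝ≥0) : ℝ) = t + G t := fun _ => rfl
  have hs : StrictMono e := by
    intro s t hst
    have h1 : (s : ℝ) < t := hst
    have h2 := hGm s t s.2 h1.le
    have : (e s : ℝ) < e t := by rw [he, he]; linarith
    exact this
  have hc : Continuous e := by
    apply Continuous.subtype_mk
    refine NNReal.continuous_coe.add ?_
    have := continuousOn_iff_continuous_domRestrict.1 hcont
    exact this.comp (continuous_id (X := ℝ≥0))
  have hsurj : Function.Surjective e := by
    intro y
    have h1 : e 0 ≤ y := by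
      have : (e 0 : ℝ) ≤ y := by rw [he]; simp [hG0]
      exact this
    have h2 : y ≤ e y := by
      have : (y : ℝ) ≤ e y := by rw [he]; linarith [hGnn y y.2]
      exact this
    obtain ⟨t, _, ht⟩ := intermediate_value_Icc (show (0:ℝ≥0) ≤ y from zero_le) hc.continuousOn ⟨h1, h2⟩
    exact ⟨t, ht⟩
  refine ⟨(StrictMono.orderIsoOfSurjective e hs hsurj).toHomeomorph, fun t => ?_⟩
  have : ((StrictMono.orderIsoOfSurjective e hs hsurj).toHomeomorph t : ℝ≥0) = e t := rfl
  rw [this, he]
  linarith [hGl t t.2, t.2]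

end Pool.Agent.CD29
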