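import Pool.Agent.CD29.Eta
import Pool.Agent.H36.Perc.Defs

/-!
# A metric on a compact space from a table of distances along a dense sequence
-/

open Set Filter Topology
open scoped NNReal

namespace Pool.Agent.CD29

/-- The table `r` of distances is quasisymmetrically controlled by the table `d`. -/
structure Good (d r : ℕ → ℕ → ℝ) (H m : ℕ → ℕ) : Prop where
  symm : ∀ i j, r i j = r j i
  tri : ∀ i j k, r i k ≤ r i j + r j k
  pos : ∀ i j, 0 < d i j → 0 < r i j
  zero : ∀ i j, d i j ≤ 0 → r i j = 0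
  q1 : ∀ n i j k : ℕ, d i j < ((n : ℝ) + 1) * d i k → r i j ≤ (H n : ℝ) * r i k
  q2 : ∀ n i j k : ℕ, d i j * ((m n : ℝ) + 1) < d i k → ((n : ℝ) + 1) * r i j ≤ r i k

variable {F : Type*} [MetricSpace F] {u : ℕ → F} {r : ℕ → ℕ → ℝ} {H m : ℕ → ℕ}

/-- The table of distances of a sequence. -/
def tab (u : ℕ → F) : ℕ → ℕ → ℝ := fun i j => dist (u i) (u j)

theorem Good.self (h : Good (tab u) r H m) (i : ℕ) : r i i = 0 :=
  h.zero i i (by simp [tab])

theorem Good.nonneg (h : Good (tab u) r H m) (i j : ℕ) : 0 ≤ r i j := by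
  have h1 := h.tri i j i
  rw [h.self, h.symm j i] at h1
  linarith

theorem Good.abs_sub {d : ℕ → ℕ → ℝ} (h : Good d r H m) (i j i' j' : ℕ) :
    |r i j - r i' j'| ≤ r i i' + r j j' := by
  have h1 := h.tri i i' j
  have h2 := h.tri i' j' j
  have h3 := h.tri i' i j'
  have h4 := h.tri i j j'
  rw [h.symm j' j] at h2
  rw [h.symm i' i] at h3
  rw [abs_le]
  constructor <;> linarith

/-- Uniform continuity of the table. -/
theorem Good.unif [CompactSpace F] (h : Good (tab u) r H m) {ε : ℝ}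
    (hε : 0 < ε) : ∃ δ > 0, ∀ i j, dist (u i) (u j) < δ → r i j < ε := by
  by_cases htriv : ∀ i j, dist (u i) (u j) = 0
  · refine ⟨1, one_pos, fun i j _ => ?_⟩
    rw [h.zero i j (by simp [tab, htriv i j])]
    exact hε
  push Not at htriv
  obtain ⟨i0, j0, hij⟩ := htriv
  set D := dist (u i0) (u j0) with hD
  have hD0 : 0 < D := lt_of_le_of_ne dist_nonneg (Ne.symm hij)
  obtain ⟨B, hB⟩ := Metric.isBounded_iff.1 (isCompact_univ (X := F)).isBounded
  obtain ⟨N, hN⟩ := exists_nat_gt (B / D)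
  set R := (H N : ℝ) * r i0 j0 with hR
  have hR1 : ∀ k, r i0 k ≤ R := by
    intro k
    apply h.q1 N i0 k j0
    have h1 : dist (u i0) (u k) ≤ B := hB (mem_univ _) (mem_univ _)
    rw [div_lt_iff₀ hD0] at hN
    show dist (u i0) (u k) < ((N:ℝ) + 1) * D
    nlinarith
  have hR0 : 0 ≤ R := (h.nonneg i0 i0).trans (hR1 i0)
  have hR2 : ∀ i k, r i k ≤ 2 * R := by
    intro i k
    have h1 := h.tri i i0 k
    rw [h.symm i i0] at h1
    linarith [hR1 i, hR1 k]
  obtain ⟨n, hn⟩ := exists_nat_gt (2 * R / ε)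
  refine ⟨D / (2 * ((m n : ℝ) + 1)), by positivity, fun i j hd => ?_⟩
  have hk : ∃ k, D / 2 ≤ dist (u i) (u k) := by
    by_contra hcon
    push Not at hcon
    have h1 := hcon i0
    have h2 := hcon j0
    have h3 := dist_triangle_left (u i0) (u j0) (u i)
    rw [← hD] at h3
    linarith
  obtain ⟨k, hk⟩ := hk
  have hm : (0:ℝ) < (m n : ℝ) + 1 := by positivity
  have h1 : dist (u i) (u j) * ((m n : ℝ) + 1) < D / 2 := by
    rw [lt_div_iff₀ (by positivity)] at hd
    linarith
  have h2 := h.q2 n i j k (lt_of_lt_of_le h1 hk)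
  have h3 := hR2 i k
  rw [div_lt_iff₀ hε] at hn
  by_contra hcon
  push Not at hcon
  have h4 : ((n:ℝ) + 1) * ε ≤ ((n:ℝ) + 1) * r i j := by gcongr
  nlinarith

/-- The extended distance. -/
theorem Good.exists_ext [CompactSpace F] (hu : DenseRange u) (h : Good (tab u) r H m) :
    ∃ ρ : F → F → ℝ, ∀ (x y : F) (s t : ℕ → ℕ), Tendsto (fun n => u (s n)) atTop (𝓝 x) →
      Tendsto (fun n => u (t n)) atTop (𝓝 y) →
      Tendsto (fun n => r (s n) (t n)) atTop (𝓝 (ρ x y)) := by
  have hs : ∀ x : F, ∃ s : ℕ → ℕ, Tendsto (fun n => u (s n)) atTop (𝓝 x) := by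
    intro x
    obtain ⟨v, hv, hlim⟩ := mem_closure_iff_seq_limit.1 (hu x)
    choose s hs using hv
    refine ⟨s, ?_⟩
    simp only [hs]
    exact hlim
  choose s0 hs0 using hs
  have hsmall : ∀ (x : F) (s t : ℕ → ℕ), Tendsto (fun n => u (s n)) atTop (𝓝 x) →
      Tendsto (fun n => u (t n)) atTop (𝓝 x) → ∀ ε > 0, ∃ N, ∀ p ≥ N, ∀ q ≥ N,
        r (s p) (t q) < ε := by
    intro x s t hs ht ε hε
    obtain ⟨δ, hδ, hr⟩ := h.unif hε
    have h1 := Metric.tendsto_atTop.1 hs (δ / 2) (half_pos hδ)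
    have h2 := Metric.tendsto_atTop.1 ht (δ / 2) (half_pos hδ)
    obtain ⟨N1, hN1⟩ := h1
    obtain ⟨N2, hN2⟩ := h2
    refine ⟨max N1 N2, fun p hp q hq => hr _ _ ?_⟩
    have h3 := hN1 p (le_of_max_le_left hp)
    have h4 := hN2 q (le_of_max_le_right hq)
    have h5 := dist_triangle_right (u (s p)) (u (t q)) x
    linarith
  have hcau : ∀ x y : F, CauchySeq fun n => r (s0 x n) (s0 y n) := by
    intro x y
    rw [Metric.cauchySeq_iff]
    intro ε hε
    obtain ⟨N1, hN1⟩ := hsmall x (s0 x) (s0 x) (hs0 x) (hs0 x) (ε / 2) (half_pos hε)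
    obtain ⟨N2, hN2⟩ := hsmall y (s0 y) (s0 y) (hs0 y) (hs0 y) (ε / 2) (half_pos hε)
    refine ⟨max N1 N2, fun p hp q hq => ?_⟩
    rw [Real.dist_eq]
    have h1 := hN1 p (le_of_max_le_left hp) q (le_of_max_le_left hq)
    have h2 := hN2 p (le_of_max_le_right hp) q (le_of_max_le_right hq)
    linarith [h.abs_sub (s0 x p) (s0 y p) (s0 x q) (s0 y q)]
  choose ρ hρ using fun x y => cauchySeq_tendsto_of_complete (hcau x y)
  refine ⟨ρ, fun x y s t hs ht => ?_⟩
  have hdiff : Tendsto (fun n => r (s n) (t n) - r (s0 x n) (s0 y n)) atTop (𝓝 0) := by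
    rw [Metric.tendsto_atTop]
    intro ε hε
    obtain ⟨N1, hN1⟩ := hsmall x s (s0 x) hs (hs0 x) (ε / 2) (half_pos hε)
    obtain ⟨N2, hN2⟩ := hsmall y t (s0 y) ht (hs0 y) (ε / 2) (half_pos hε)
    refine ⟨max N1 N2, fun p hp => ?_⟩
    rw [Real.dist_eq, sub_zero]
    have h1 := hN1 p (le_of_max_le_left hp) p (le_of_max_le_left hp)
    have h2 := hN2 p (le_of_max_le_right hp) p (le_of_max_le_right hp)
    linarith [h.abs_sub (s p) (t p) (s0 x p) (s0 y p)]
  have := hdiff.add (hρ x y)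
  simpa using this

/-- The metric space obtained by changing the distance. -/
structure Wrap (F : Type) where
  pt : F

/-- The conditions give a quasisymmetric image with the prescribed table. -/
theorem Good.exists_space {F : Type} [MetricSpace F] [CompactSpace F] {u : ℕ → F}
    (hu : DenseRange u) (h : Good (tab u) r H m) :
    ∃ (Y : Type) (_ : MetricSpace Y) (f : F ≃ₜ Y), Pool.Agent.H36.Perc.IsQuasisymmetric f ∧
      ∀ i j, dist (f (u i)) (f (u j)) = r i j := by
  obtain ⟨ρ, hρ⟩ := h.exists_ext hu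
  have hs : ∀ x : F, ∃ s : ℕ → ℕ, Tendsto (fun n => u (s n)) atTop (𝓝 x) := by
    intro x
    obtain ⟨v, hv, hlim⟩ := mem_closure_iff_seq_limit.1 (hu x)
    choose s hs using hv
    refine ⟨s, ?_⟩
    simp only [hs]
    exact hlim
  choose s hs using hs
  have hlim : ∀ x y, Tendsto (fun n => r (s x n) (s y n)) atTop (𝓝 (ρ x y)) :=
    fun x y => hρ x y _ _ (hs x) (hs y)
  have hval : ∀ i j, ρ (u i) (u j) = r i j := by
    intro i j
    have := hρ (u i) (u j) (fun _ => i) (fun _ => j) tendsto_const_nhds tendsto_const_nhds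
    exact tendsto_nhds_unique this tendsto_const_nhds
  have hself : ∀ x, ρ x x = 0 := by
    intro x
    refine tendsto_nhds_unique (hlim x x) ?_
    simp only [h.self]
    exact tendsto_const_nhds
  have hsymm : ∀ x y, ρ x y = ρ y x := by
    intro x y
    refine tendsto_nhds_unique (hlim x y) ?_
    refine (hlim y x).congr fun n => h.symm _ _
  have htri : ∀ x y z, ρ x z ≤ ρ x y + ρ y z := by
    intro x y z
    exact le_of_tendsto_of_tendsto' (hlim x z) ((hlim x y).add (hlim y z)) fun n => h.tri _ _ _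
  have hnn : ∀ x y, 0 ≤ ρ x y := fun x y => ge_of_tendsto' (hlim x y) fun n => h.nonneg _ _
  have hd : ∀ x y, Tendsto (fun n => dist (u (s x n)) (u (s y n))) atTop (𝓝 (dist x y)) :=
    fun x y => (hs x).dist (hs y)
  have hq1 : ∀ (n : ℕ) (x a b : F), dist x a < ((n : ℝ) + 1) * dist x b →
      ρ x a ≤ (H n : ℝ) * ρ x b := by
    intro n x a b hlt
    refine le_of_tendsto_of_tendsto (hlim x a) ((hlim x b).const_mul _) ?_
    have := (hd x a).eventually_lt ((hd x b).const_mul _) hlt
    filter_upwards [this] with k hk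
    exact h.q1 n _ _ _ hk
  have hq2 : ∀ (n : ℕ) (x a b : F), dist x a * ((m n : ℝ) + 1) < dist x b →
      ((n : ℝ) + 1) * ρ x a ≤ ρ x b := by
    intro n x a b hlt
    refine le_of_tendsto_of_tendsto ((hlim x a).const_mul _) (hlim x b) ?_
    have := ((hd x a).mul_const ((m n : ℝ) + 1)).eventually_lt (hd x b) hlt
    filter_upwards [this] with k hk
    exact h.q2 n _ _ _ hk
  have hpos : ∀ x y, ρ x y = 0 → x = y := by
    intro x y hxy
    by_contra hne
    have hd0 : 0 < dist x y := dist_pos.2 hne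
    obtain ⟨B, hB⟩ := Metric.isBounded_iff.1 (isCompact_univ (X := F)).isBounded
    obtain ⟨N, hN⟩ := exists_nat_gt (B / dist x y)
    rw [div_lt_iff₀ hd0] at hN
    have h1 : ∀ b, ρ x b = 0 := by
      intro b
      apply le_antisymm _ (hnn _ _)
      have h2 : dist x b ≤ B := hB (mem_univ _) (mem_univ _)
      have := hq1 N x b y (by nlinarith)
      rwa [hxy, mul_zero] at this
    have h2 : ∀ i j, r i j = 0 := by
      intro i j
      apply le_antisymm _ (h.nonneg _ _)
      rw [← hval]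
      have := htri (u i) x (u j)
      rw [hsymm (u i) x, h1, h1] at this
      linarith
    -- two terms of the sequence near `x` and `y` are different
    have h3 := (hd x y).eventually (lt_mem_nhds hd0)
    obtain ⟨k, hk⟩ := h3.exists
    have := h.pos (s x k) (s y k) hk
    rw [h2] at this
    exact lt_irrefl _ this
  let mY : MetricSpace (Wrap F) :=
    { dist := fun x y => ρ x.pt y.pt
      dist_self := fun x => hself _
      dist_comm := fun x y => hsymm _ _
      dist_triangle := fun x y z => htri _ _ _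
      eq_of_dist_eq_zero := fun {x y} hxy => by
        have := hpos _ _ hxy
        cases x; cases y; simp only at this; rw [this] }
  have hdist : ∀ x y : F, dist (Wrap.mk x) (Wrap.mk y) = ρ x y := fun _ _ => rfl
  let e : F ≃ Wrap F := ⟨Wrap.mk, Wrap.pt, fun _ => rfl, fun _ => rfl⟩
  have hcont : Continuous e := by
    rw [Metric.continuous_iff]
    intro x ε hε
    obtain ⟨δ, hδ, hr⟩ := h.unif (half_pos hε)
    refine ⟨δ, hδ, fun y hy => ?_⟩
    have h1 : ρ y x ≤ ε / 2 := by
      refine le_of_tendsto (hlim y x) ?_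
      filter_upwards [(hd y x).eventually (gt_mem_nhds hy)] with n hn
      exact (hr _ _ hn).le
    show ρ y x < ε
    linarith
  let f : F ≃ₜ Wrap F := hcont.homeoOfEquivCompactToT2
  have hf : ∀ x, f x = Wrap.mk x := fun _ => rfl
  refine ⟨Wrap F, mY, f, ?_, fun i j => hval i j⟩
  -- the control function
  let S : ℝ → Set ℝ := fun t => insert 0 {q | ∃ x a b : F, x ≠ b ∧ dist x a ≤ t * dist x b ∧
    q = ρ x a / ρ x b}
  have hSne : ∀ t, (S t).Nonempty := fun t => ⟨0, mem_insert _ _⟩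
  have hρpos : ∀ x b : F, x ≠ b → 0 < ρ x b := fun x b hxb =>
    lt_of_le_of_ne (hnn _ _) fun h0 => hxb (hpos _ _ h0.symm)
  have hSbd : ∀ t, BddAbove (S t) := by
    intro t
    obtain ⟨N, hN⟩ := exists_nat_gt t
    refine ⟨H N, ?_⟩
    rintro q (rfl | ⟨x, a, b, hxb, hle, rfl⟩)
    · positivity
    · rw [div_le_iff₀ (hρpos x b hxb)]
      apply hq1 N x a b
      have : 0 < dist x b := dist_pos.2 hxb
      nlinarith
  have hmono : Monotone fun t => sSup (S t) := by
    intro t t' htt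
    apply csSup_le_csSup (hSbd t') (hSne t)
    apply insert_subset_insert
    rintro q ⟨x, a, b, hxb, hle, rfl⟩
    exact ⟨x, a, b, hxb, hle.trans (by gcongr), rfl⟩
  have hzero : ∀ t ≤ 0, sSup (S t) = 0 := by
    intro t ht
    apply le_antisymm
    · apply csSup_le (hSne t)
      rintro q (rfl | ⟨x, a, b, hxb, hle, rfl⟩)
      · exact le_rfl
      · have h1 : 0 < dist x b := dist_pos.2 hxb
        have h2 : dist x a ≤ 0 := by nlinarith
        have h3 : x = a := dist_le_zero.1 h2
        rw [h3, hself]; simp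
    · exact le_csSup (hSbd t) (mem_insert _ _)
  have hnn2 : ∀ t, 0 ≤ sSup (S t) := fun t => le_csSup (hSbd t) (mem_insert _ _)
  have htend : Tendsto (fun t => sSup (S t)) (𝓝[>] 0) (𝓝 0) := by
    rw [Metric.tendsto_nhdsWithin_nhds]
    intro ε hε
    obtain ⟨n, hn⟩ := exists_nat_gt (1 / ε)
    refine ⟨1 / ((m n : ℝ) + 1), by positivity, fun {t} ht htd => ?_⟩
    rw [Real.dist_eq, sub_zero, abs_of_nonneg (hnn2 t)]
    rw [Real.dist_eq, sub_zero, abs_of_pos ht] at htd
    have hm : (0:ℝ) < (m n : ℝ) + 1 := by positivity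
    rw [lt_div_iff₀ hm] at htd
    have h1 : sSup (S t) ≤ 1 / ((n:ℝ) + 1) := by
      apply csSup_le (hSne t)
      rintro q (rfl | ⟨x, a, b, hxb, hle, rfl⟩)
      · positivity
      · have h1 : 0 < dist x b := dist_pos.2 hxb
        have h2 := hq2 n x a b (by nlinarith)
        rw [div_le_div_iff₀ (hρpos x b hxb) (by positivity)]
        linarith
    refine h1.trans_lt ?_
    rw [div_lt_iff₀ hε] at hn
    rw [div_lt_iff₀ (by positivity)]
    nlinarith
  obtain ⟨η, hη⟩ := exists_homeo hmono hzero htend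
  refine ⟨η, fun x a b t ht hle => ?_⟩
  rw [hf, hf, hf, hdist, hdist]
  by_cases hxb : x = b
  · subst hxb
    rw [dist_self, mul_zero] at hle
    have : x = a := dist_le_zero.1 hle
    rw [← this, hself]; simp
  · have h1 : ρ x a / ρ x b ≤ sSup (S t) := by
      apply le_csSup (hSbd _)
      right
      exact ⟨x, a, b, hxb, hle, rfl⟩
    rw [div_le_iff₀ (hρpos x b hxb)] at h1
    refine h1.trans ?_
    have := hρpos x b hxb
    gcongr
    exact hη t

end Pool.Agent.CD29
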